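import Pool.Agent.MP_52bf41_ag.H12.Spec

/-! The standard atlas of `Proj B[y]/(E)`. -/

open AlgebraicGeometry CategoryTheory Limits MvPolynomial HomogeneousLocalization

namespace Pool.Agent.MP_52bf41_ag.H96

open H12

noncomputable section

section General

variable {A σ : Type} [CommRing A] [SetLike σ A] [AddSubgroupClass σ A] (𝒜 : ℕ → σ)
  [GradedRing 𝒜] {f : A} {m : ℕ} (hf : f ∈ 𝒜 m) (hm : 0 < m)

theorem le_pre : (⊤ : (Spec (.of (Away 𝒜 f))).Opens) ≤
    Proj.awayι 𝒜 f hf hm ⁻¹ᵁ Proj.basicOpen 𝒜 f := by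
  rw [← Proj.opensRange_awayι 𝒜 f hf hm]
  exact fun x _ => ⟨x, rfl⟩

theorem pl_away (a : Away 𝒜 f) :
    pl (Proj.awayι 𝒜 f hf hm) (le_pre 𝒜 hf hm) ((Proj.awayToSection 𝒜 f).hom a) =
      (Scheme.ΓSpecIso (.of (Away 𝒜 f))).inv.hom a := by
  have h1 : (Proj.awayι 𝒜 f hf hm).appLE _ _ (le_pre 𝒜 hf hm) =
      (Proj.basicOpen 𝒜 f).topIso.inv ≫ (Proj.basicOpenIsoSpec 𝒜 f hf hm).inv.appTop := by
    have : (Proj.basicOpen 𝒜 f).topIso.inv =
        (Proj.basicOpen 𝒜 f).ι.appLE _ ⊤ (by simp) := by
      simp [Scheme.Opens.topIso, Scheme.Hom.appLE]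
      rfl
    rw [this, Scheme.Hom.appTop, Scheme.Hom.app_eq_appLE]
    exact (Scheme.Hom.appLE_comp_appLE _ _ _ _ _ _ _).symm
  have h2 : Proj.awayToSection 𝒜 f ≫ (Proj.basicOpen 𝒜 f).topIso.inv =
      (Scheme.ΓSpecIso (.of (Away 𝒜 f))).inv ≫ (Proj.basicOpenIsoSpec 𝒜 f hf hm).hom.appTop := by
    rw [Iso.eq_inv_comp, ← Proj.basicOpenToSpec_app_top]
    rfl
  rw [pl, ← CommRingCat.comp_apply, h1, ← Category.assoc, h2, Category.assoc,
    ← Scheme.Hom.comp_appTop, Iso.inv_hom_id]
  simp

include hf hm in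
theorem away_bij : Function.Bijective (Proj.awayToSection 𝒜 f).hom :=
  (ConcreteCategory.isIso_iff_bijective _).mp (Proj.basicOpenIsoAway 𝒜 f hf hm).isIso_hom

include hf hm in
theorem alg_away (a : 𝒜 0) : alg (Proj.toSpecZero 𝒜) (Proj.basicOpen 𝒜 f) a =
    (Proj.awayToSection 𝒜 f).hom (fromZeroRingHom 𝒜 _ a) := by
  obtain ⟨b, hb⟩ := (away_bij 𝒜 hf hm).2 (alg (Proj.toSpecZero 𝒜) (Proj.basicOpen 𝒜 f) a)
  have h := pl_away 𝒜 hf hm b
  rw [hb, pl_alg, Proj.awayι_toSpecZero, alg_top] at h
  have h2 : pb (Spec.map (CommRingCat.ofHom (fromZeroRingHom 𝒜 (Submonoid.powers f)))) a =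
      (Scheme.ΓSpecIso (.of (Away 𝒜 f))).inv.hom (fromZeroRingHom 𝒜 _ a) := by
    have := pb_spec (𝟙 _) (fromZeroRingHom 𝒜 (Submonoid.powers f)) a
    rw [Category.id_comp] at this
    rw [this]
    simp [pb]
  rw [h2] at h
  have hi : Function.Injective (Scheme.ΓSpecIso (.of (Away 𝒜 f))).inv.hom :=
    ((ConcreteCategory.isIso_iff_bijective _).mp inferInstance).1
  rw [← hb, hi h]

include hm in
theorem inter_away {g : A} {m' : ℕ} (hg : g ∈ 𝒜 m') (hm' : 0 < m') :
    Proj.basicOpen 𝒜 f ⊓ Proj.basicOpen 𝒜 g =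
      (Proj 𝒜).basicOpen ((Proj.awayToSection 𝒜 f).hom (Away.isLocalizationElem hf hg)) := by
  have h := basicOpen_pl (Proj.awayι 𝒜 f hf hm) (le_pre 𝒜 hf hm)
    ((Proj.awayToSection 𝒜 f).hom (Away.isLocalizationElem hf hg))
  rw [pl_away, top_inf_eq] at h
  have h2 : (Spec (.of (Away 𝒜 f))).basicOpen ((Scheme.ΓSpecIso (.of (Away 𝒜 f))).inv.hom
      (Away.isLocalizationElem hf hg)) = Proj.awayι 𝒜 f hf hm ⁻¹ᵁ Proj.basicOpen 𝒜 g := by
    rw [Proj.awayι_preimage_basicOpen 𝒜 hf hm hg hm']
    exact basicOpen_eq_of_affine _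
  have h3 := congrArg (fun U => Proj.awayι 𝒜 f hf hm ''ᵁ U) (h2.symm.trans h)
  simp only [Scheme.Hom.image_preimage_eq_opensRange_inf, Proj.opensRange_awayι] at h3
  rw [h3]
  exact inf_eq_right.mpr ((Proj 𝒜).basicOpen_le _)

theorem res_away {g : A} {m' : ℕ} (hg : g ∈ 𝒜 m') {x : A} (hx : x = f * g) (a : Away 𝒜 f) :
    res (Proj.basicOpen_mono 𝒜 _ _ ⟨_, hx⟩) ((Proj.awayToSection 𝒜 f).hom a) =
      (Proj.awayToSection 𝒜 x).hom (awayMap 𝒜 hg hx a) := by
  have := Proj.awayMap_awayToSection 𝒜 hg hx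
  exact (congrArg (fun φ => φ.hom a) this).symm

end General

section Quot

variable {B κ : Type} [CommRing B] (E : Set (MvPolynomial κ B))

theorem eval₂_homog {R : Type} [CommRing R] (g : B →+* R) (y : κ → R) (c : R)
    {p : MvPolynomial κ B} {d : ℕ} (hp : p.IsHomogeneous d) :
    eval₂Hom g (fun k => y k * c) p = eval₂Hom g y p * c ^ d := by
  classical
  conv_lhs => rw [p.as_sum]
  conv_rhs => rw [p.as_sum]
  rw [map_sum, map_sum, Finset.sum_mul]
  refine Finset.sum_congr rfl fun s hs => ?_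
  have hd : s.degree = d := by
    have := hp (mem_support_iff.mp hs)
    rw [Finsupp.degree_eq_weight_one]
    exact this
  rw [eval₂Hom_monomial, eval₂Hom_monomial, mul_assoc, ← hd, Finsupp.degree_apply, Finsupp.prod,
    Finsupp.prod, ← Finset.prod_pow_eq_pow_sum, ← Finset.prod_mul_distrib]
  simp only [mul_pow]

/-- the homogeneous coordinate ring -/
abbrev S : Type := MvPolynomial κ B ⧸ Ideal.span E

/-- its grading -/
def gr (i : ℕ) : Submodule B (S E) :=
  (homogeneousSubmodule κ B i).map (Ideal.Quotient.mkₐ B (Ideal.span E)).toLinearMap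

theorem mk_mem {p : MvPolynomial κ B} {d : ℕ} (hp : p.IsHomogeneous d) :
    Ideal.Quotient.mk (Ideal.span E) p ∈ gr E d := ⟨p, hp, rfl⟩

instance : SetLike.GradedMonoid (gr E) where
  one_mem := mk_mem E (isHomogeneous_one κ B)
  mul_mem := by
    rintro i j _ _ ⟨p, hp, rfl⟩ ⟨q, hq, rfl⟩
    exact mk_mem E (IsHomogeneous.mul hp hq)

/-- the class of a variable -/
def xx (k : κ) : S E := Ideal.Quotient.mk _ (X k)

theorem xx_mem (k : κ) : xx E k ∈ gr E 1 := mk_mem E (isHomogeneous_X B k)

attribute [local instance] MvPolynomial.gradedAlgebra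

/-- decomposition of polynomials -/
def dec0 : MvPolynomial κ B →ₗ[B] DirectSum ℕ fun i => gr E i :=
  (DirectSum.lmap fun i => (Ideal.Quotient.mkₐ B (Ideal.span E)).toLinearMap.restrict
    (p := homogeneousSubmodule κ B i) (q := gr E i) fun _ hp => mk_mem E hp) ∘ₗ
    (DirectSum.decomposeLinearEquiv (homogeneousSubmodule κ B)).toLinearMap

theorem dec0_apply (p : MvPolynomial κ B) (i : ℕ) :
    (dec0 E p i : S E) =
      Ideal.Quotient.mk _ (DirectSum.decompose (homogeneousSubmodule κ B) p i : MvPolynomial κ B) :=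
  rfl

theorem dec0_homog {p : MvPolynomial κ B} {d : ℕ} (hp : p.IsHomogeneous d) :
    dec0 E p = DirectSum.of (fun i => gr E i) d ⟨_, mk_mem E hp⟩ := by
  ext i
  rw [dec0_apply]
  by_cases h : d = i
  · subst h
    rw [DirectSum.decompose_of_mem_same (homogeneousSubmodule κ B) hp, DirectSum.of_eq_same]
  · rw [DirectSum.decompose_of_mem_ne (homogeneousSubmodule κ B) hp h, map_zero,
      DirectSum.of_eq_of_ne _ _ _ (Ne.symm h)]
    rfl

variable {E} (hE : ∀ e ∈ E, e.IsHomogeneous 2)

include hE in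
theorem dec0_ker (p : MvPolynomial κ B) (hp : p ∈ Ideal.span E) : dec0 E p = 0 := by
  ext i
  rw [dec0_apply]
  exact Ideal.Quotient.eq_zero_iff_mem.mpr
    (Ideal.homogeneous_span (homogeneousSubmodule κ B) E (fun e he => ⟨2, hE e he⟩) i hp)

/-- decomposition in the quotient -/
def dec : S E →+ DirectSum ℕ fun i => gr E i :=
  QuotientAddGroup.lift (Ideal.span E).toAddSubgroup (dec0 E).toAddMonoidHom (dec0_ker hE)

theorem dec_mk (p : MvPolynomial κ B) : dec hE (Ideal.Quotient.mk _ p) = dec0 E p := rfl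

/-- the graded ring structure -/
@[reducible] def grRing : GradedRing (gr E) where
  decompose' := dec hE
  left_inv x := by
    obtain ⟨p, rfl⟩ := Ideal.Quotient.mk_surjective x
    rw [dec_mk]
    induction p using DirectSum.Decomposition.inductionOn (homogeneousSubmodule κ B) with
    | zero => simp
    | homogeneous p => rw [dec0_homog E p.2, DirectSum.coeAddMonoidHom_of]
    | add p q hp hq => rw [map_add, map_add, hp, hq, map_add]
  right_inv x := by
    induction x using DirectSum.induction_on with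
    | zero => simp
    | of i x =>
      obtain ⟨_, p, hp, rfl⟩ := x
      rw [DirectSum.coeAddMonoidHom_of]
      exact dec0_homog E hp
    | add x y hx hy => rw [map_add, map_add, hx, hy]

variable (E) in
/-- constants -/
def cst : B →+* gr E 0 where
  toFun b := ⟨Ideal.Quotient.mk _ (C b), mk_mem E (isHomogeneous_C κ b)⟩
  map_one' := Subtype.ext (by simp)
  map_mul' a b := Subtype.ext (by simp)
  map_zero' := Subtype.ext (by simp)
  map_add' a b := Subtype.ext (by simp)

variable (E) in
theorem cst_surj : Function.Surjective (cst E) := by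
  rintro ⟨_, p, hp, rfl⟩
  refine ⟨coeff 0 p, Subtype.ext ?_⟩
  have : p = C (coeff 0 p) := by
    rw [← homogeneousComponent_zero, homogeneousComponent_eq_self hp]
  change Ideal.Quotient.mk _ (C _) = Ideal.Quotient.mk _ p
  rw [← this]

variable (E) in
theorem adjoin_xx : Algebra.adjoin (gr E 0) (Set.range (xx E)) = ⊤ := by
  rw [eq_top_iff]
  rintro x -
  obtain ⟨p, rfl⟩ := Ideal.Quotient.mk_surjective x
  induction p using MvPolynomial.induction_on with
  | C b => exact Subalgebra.algebraMap_mem _ (cst E b)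
  | add p q hp hq => rw [map_add]; exact add_mem hp hq
  | mul_X p k hp => rw [map_mul]; exact mul_mem hp (Algebra.subset_adjoin ⟨k, rfl⟩)

section Chart

variable [GradedRing (gr E)]

variable (E) in
/-- the affine coordinates -/
def yy (k l : κ) : Away (gr E) (xx E k) :=
  Away.mk (gr E) (xx_mem E k) 1 (xx E l) (xx_mem E l)

variable (E) in
/-- the presentation of the chart -/
def ps (k : κ) : MvPolynomial κ B →+* Away (gr E) (xx E k) :=
  eval₂Hom ((fromZeroRingHom (gr E) _).comp (cst E)) (yy E k)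

theorem ps_homog (k : κ) {p : MvPolynomial κ B} {d : ℕ} (hp : p.IsHomogeneous d)
    (h : Ideal.Quotient.mk (Ideal.span E) p ∈ gr E (d • 1)) :
    ps E k p = Away.mk (gr E) (xx_mem E k) d _ h := by
  apply val_injective
  set c : Localization (Submonoid.powers (xx E k)) := Localization.mk 1 ⟨xx E k, 1, pow_one _⟩
  have h1 : (algebraMap _ (Localization (Submonoid.powers (xx E k)))).comp (ps E k) =
      eval₂Hom ((algebraMap (S E) _).comp ((Ideal.Quotient.mk _).comp C))
        fun l => algebraMap (S E) _ (xx E l) * c := by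
    ext l
    · simp only [ps, RingHom.comp_apply, eval₂Hom_C]
      rfl
    · simp only [ps, RingHom.comp_apply, eval₂Hom_X', c, ← Localization.mk_one_eq_algebraMap,
        Localization.mk_mul, mul_one, one_mul]
      change (yy E k l).val = _
      simp [yy]
  have h2 : eval₂Hom ((algebraMap (S E) (Localization (Submonoid.powers (xx E k)))).comp
      ((Ideal.Quotient.mk _).comp C)) (fun l => algebraMap (S E) _ (xx E l)) =
      (algebraMap (S E) _).comp (Ideal.Quotient.mk _) := by
    apply MvPolynomial.ringHom_ext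
    · intro b
      rw [eval₂Hom_C]
      rfl
    · intro l
      rw [eval₂Hom_X']
      rfl
  have h3 := congrArg (fun φ => φ p) h1
  simp only [RingHom.comp_apply] at h3
  rw [eval₂_homog _ _ _ hp, h2] at h3
  refine h3.trans ?_
  simp only [RingHom.comp_apply, c, ← Localization.mk_one_eq_algebraMap, Localization.mk_pow,
    Localization.mk_mul, Away.val_mk, one_pow, mul_one, one_mul]
  rfl

theorem ps_surj (k : κ) : Function.Surjective (ps E k) := by
  intro a
  obtain ⟨n, _, ⟨p, hp, rfl⟩, rfl⟩ := Away.mk_surjective (gr E) (xx_mem E k) a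
  exact ⟨p, ps_homog k (by simpa using hp) _⟩

theorem yy_self (k : κ) : yy E k k = 1 := by
  apply val_injective
  simp [yy, Localization.mk_self_mk]

include hE in
theorem ps_ker (k : κ) (p : MvPolynomial κ B) :
    ps E k p = 0 ↔ p ∈ Ideal.span (insert (X k - 1) E) := by
  constructor
  · intro hp
    let J := Ideal.span (insert (X k - 1 : MvPolynomial κ B) E)
    let φ : S E →+* MvPolynomial κ B ⧸ J :=
      Ideal.Quotient.factor (Ideal.span_mono (Set.subset_insert _ _))
    have hφ : φ (xx E k) = 1 := by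
      change Ideal.Quotient.mk J (X k) = Ideal.Quotient.mk J 1
      exact Ideal.Quotient.eq.mpr (Ideal.subset_span (Set.mem_insert _ _))
    let θ : Localization (Submonoid.powers (xx E k)) →+* MvPolynomial κ B ⧸ J :=
      Localization.awayLift φ (xx E k) (hφ ▸ isUnit_one)
    have hθ : ∀ a n, θ (Localization.mk a ⟨xx E k ^ n, n, rfl⟩) = φ a := by
      intro a n
      rw [Localization.awayLift_mk φ (xx E k) a 1 (by rw [hφ, one_mul]) n, one_pow, mul_one]
    have h1 : θ.comp ((algebraMap _ _).comp (ps E k)) = Ideal.Quotient.mk J := by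
      ext l
      · simp only [ps, RingHom.comp_apply, eval₂Hom_C]
        exact IsLocalization.Away.lift_eq _ _ _
      · simp only [ps, RingHom.comp_apply, eval₂Hom_X']
        exact hθ (xx E l) 1
    have h2 := congrArg (fun φ => φ p) h1
    simp only [RingHom.comp_apply, hp, map_zero] at h2
    exact Ideal.Quotient.eq_zero_iff_mem.mp h2.symm
  · intro hp
    refine (Ideal.span_le (I := RingHom.ker (ps E k))).mpr ?_ hp
    rintro e (rfl | he)
    · simp [ps, yy_self]
    · change ps E k e = 0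
      rw [ps_homog k (hE e he) (mk_mem E (hE e he))]
      apply val_injective
      rw [Away.val_mk, Ideal.Quotient.eq_zero_iff_mem.mpr (Ideal.subset_span he),
        Localization.mk_zero, val_zero]

theorem yy_trans (k l m : κ) :
    awayMap (gr E) (xx_mem E l) rfl (yy E k l) *
      awayMap (gr E) (xx_mem E k) (mul_comm _ _) (yy E l m) =
      awayMap (gr E) (xx_mem E l) rfl (yy E k m) := by
  apply val_injective
  simp only [yy, awayMap_mk, val_mul, Away.val_mk, Localization.mk_mul]
  rw [Localization.mk_eq_mk_iff, Localization.r_iff_exists]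
  exact ⟨1, by simp only [OneMemClass.coe_one, Submonoid.coe_mul]; ring⟩

theorem ev_eq (k : κ) :
    eval₂Hom (alg (Proj.toSpecZero (gr E) ≫ Spec.map (CommRingCat.ofHom (cst E)))
      (Proj.basicOpen (gr E) (xx E k)))
      (fun l => (Proj.awayToSection (gr E) (xx E k)).hom (yy E k l)) =
      (Proj.awayToSection (gr E) (xx E k)).hom.comp (ps E k) := by
  apply MvPolynomial.ringHom_ext
  · intro b
    simp only [ps, RingHom.comp_apply, eval₂Hom_C, alg_spec]
    exact alg_away (gr E) (xx_mem E k) one_pos _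
  · intro l
    simp only [ps, RingHom.comp_apply, eval₂Hom_X']

end Chart

end Quot

theorem sProj : SProj := by
  intro B κ _ _ E hE
  let := grRing hE
  have : Algebra.FiniteType (gr E 0) (S E) :=
    ⟨⟨(Set.finite_range (xx E)).toFinset, by rw [Set.Finite.coe_toFinset]; exact adjoin_xx E⟩⟩
  have : IsClosedImmersion (Spec.map (CommRingCat.ofHom (cst E))) :=
    IsClosedImmersion.spec_of_surjective _ (cst_surj E)
  refine ⟨{
    C := Proj (gr E)
    π := Proj.toSpecZero (gr E) ≫ Spec.map (CommRingCat.ofHom (cst E))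
    proper := inferInstance
    Dk := fun k => Proj.basicOpen (gr E) (xx E k)
    aff := fun k => Proj.isAffineOpen_basicOpen _ _ (xx_mem E k) one_pos
    cover := Proj.iSup_basicOpen_eq_top' _ _ (fun k => ⟨1, xx_mem E k⟩) (adjoin_xx E)
    Y := fun k l => (Proj.awayToSection (gr E) (xx E k)).hom (yy E k l)
    self := fun k => by rw [yy_self, map_one]
    surj := fun k => ?_
    ker := fun k p => ?_
    inter := fun k l => ?_
    trans := fun k l m => ?_ }⟩
  · rw [ev_eq]
    exact (away_bij _ (xx_mem E k) one_pos).2.comp (ps_surj k)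
  · rw [ev_eq, RingHom.comp_apply, map_eq_zero_iff _ (away_bij _ (xx_mem E k) one_pos).1]
    exact ps_ker hE k p
  · rw [inter_away _ (xx_mem E k) one_pos (xx_mem E l) one_pos]
    congr 2
    apply val_injective
    simp [yy]
  · have h := congrArg (fun a => res (Proj.basicOpen_mul (gr E) (xx E k) (xx E l)).ge
      ((Proj.awayToSection (gr E) (xx E k * xx E l)).hom a)) (yy_trans (E := E) k l m)
    simp only [map_mul] at h
    rw [← res_away _ (xx_mem E l) rfl, ← res_away _ (xx_mem E l) rfl,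
      ← res_away _ (xx_mem E k) (mul_comm _ _), res_res, res_res, res_res] at h
    exact h

end

end Pool.Agent.MP_52bf41_ag.H96
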